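import Pool.Agent.H41N.DC.Sep

/-!
# Products of two finitely generated subgroups of the braid group on three strands are closed in the profinite topology
-/

set_option autoImplicit false
set_option linter.unusedSectionVars false

namespace Pool.Agent.H41N.DC

/-- the relator `s t s = t s t` -/
def rel : FreeGroup (Fin 2) :=
  FreeGroup.of 0 * FreeGroup.of 1 * FreeGroup.of 0 * (FreeGroup.of 1 * FreeGroup.of 0 * FreeGroup.of 1)⁻¹

/-- the braid group on three strands -/
abbrev B3 : Type := PresentedGroup ({rel} : Set (FreeGroup (Fin 2)))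

/-- the first generator -/
def s : B3 := PresentedGroup.of 0

/-- the second generator -/
def t : B3 := PresentedGroup.of 1

lemma braid : s * t * s = t * s * t := by
  have h1 : (PresentedGroup.mk ({rel} : Set (FreeGroup (Fin 2))) rel : B3) = 1 := PresentedGroup.one_of_mem rfl
  have h2 : s * t * s * (t * s * t)⁻¹ = 1 := h1
  exact mul_inv_eq_one.1 h2

lemma top_le (H : Subgroup B3) (hs : s ∈ H) (ht : t ∈ H) (g : B3) : g ∈ H := by
  have h1 : Subgroup.closure (Set.range (PresentedGroup.of : Fin 2 → B3)) ≤ H := by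
    rw [Subgroup.closure_le]
    rintro _ ⟨i, rfl⟩
    fin_cases i
    · exact hs
    · exact ht
  rw [PresentedGroup.closure_range_of] at h1
  exact h1 (Subgroup.mem_top g)

/-- the full twist -/
def z : B3 := (s * t * s) * (s * t * s)

lemma ds : (s * t * s) * s = t * (s * t * s) := by
  conv_lhs => rw [braid]
  group

lemma dt : (s * t * s) * t = s * (s * t * s) := by
  have h := braid
  calc (s * t * s) * t = s * (t * s * t) := by group
    _ = _ := by rw [← h]

lemma z_central (g : B3) : z * g = g * z := by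
  have h1 : g ∈ Subgroup.centralizer ({z} : Set B3) := by
    refine top_le _ ?_ ?_ g
    · rw [Subgroup.mem_centralizer_singleton_iff]
      unfold z
      calc s * (s * t * s * (s * t * s)) = (s * (s * t * s)) * (s * t * s) := by group
        _ = ((s * t * s) * t) * (s * t * s) := by rw [dt]
        _ = (s * t * s) * (t * (s * t * s)) := by group
        _ = (s * t * s) * ((s * t * s) * s) := by rw [ds]
        _ = _ := by group
    · rw [Subgroup.mem_centralizer_singleton_iff]
      unfold z
      calc t * (s * t * s * (s * t * s)) = (t * (s * t * s)) * (s * t * s) := by group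
        _ = ((s * t * s) * s) * (s * t * s) := by rw [ds]
        _ = (s * t * s) * (s * (s * t * s)) := by group
        _ = (s * t * s) * ((s * t * s) * t) := by rw [dt]
        _ = _ := by group
  rw [Subgroup.mem_centralizer_singleton_iff] at h1
  exact h1.symm

/-- the free group of rank two -/
abbrev F : Type := FreeGroup (Fin 2)

/-- the automorphism -/
def phi : F ≃* F :=
  MonoidHom.toMulEquiv (FreeGroup.lift ![FreeGroup.of 1, (FreeGroup.of 0)⁻¹ * FreeGroup.of 1])
    (FreeGroup.lift ![FreeGroup.of 0 * (FreeGroup.of 1)⁻¹, FreeGroup.of 0])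
    (by
      ext i
      fin_cases i <;> simp)
    (by
      ext i
      fin_cases i <;> simp)

lemma phi_zero : phi (FreeGroup.of 0) = FreeGroup.of 1 := by
  simp [phi]

lemma phi_one : phi (FreeGroup.of 1) = (FreeGroup.of 0)⁻¹ * FreeGroup.of 1 := by
  simp [phi]

/-- the semidirect product -/
abbrev P : Type := F ⋊[zpowersHom (MulAut F) phi] Multiplicative ℤ

/-- the homomorphism to the semidirect product -/
def beta : B3 →* P :=
  PresentedGroup.toGroup (f := ![SemidirectProduct.inr (Multiplicative.ofAdd 1),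
    SemidirectProduct.inl (FreeGroup.of 0) * SemidirectProduct.inr (Multiplicative.ofAdd 1)]) (by
    intro r hr
    rw [Set.mem_singleton_iff] at hr
    subst hr
    unfold rel
    rw [map_mul, map_inv, mul_inv_eq_one]
    simp only [map_mul, FreeGroup.lift_apply_of, Matrix.cons_val_zero, Matrix.cons_val_one]
    apply SemidirectProduct.ext
    · simp [phi_zero, zpowersHom_apply]
      rw [pow_two, MulAut.mul_apply, phi_zero, phi_one, mul_inv_cancel_left]
    · simp)

lemma beta_s : beta s = SemidirectProduct.inr (Multiplicative.ofAdd 1) := by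
  unfold beta s
  rw [PresentedGroup.toGroup.of]
  rfl

lemma beta_t : beta t = SemidirectProduct.inl (FreeGroup.of 0) * SemidirectProduct.inr (Multiplicative.ofAdd 1) := by
  unfold beta t
  rw [PresentedGroup.toGroup.of]
  rfl

/-- the free subgroup -/
def alpha : F →* B3 := FreeGroup.lift ![t * s⁻¹, s * (t * s⁻¹) * s⁻¹]

lemma alpha_zero : alpha (FreeGroup.of 0) = t * s⁻¹ := by
  simp [alpha]

lemma alpha_one : alpha (FreeGroup.of 1) = s * (t * s⁻¹) * s⁻¹ := by
  simp [alpha]

lemma beta_alpha (f : F) : beta (alpha f) = SemidirectProduct.inl f := by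
  have h : beta.comp alpha = SemidirectProduct.inl := by
    ext i : 1
    fin_cases i
    · show beta (alpha (FreeGroup.of 0)) = _
      rw [alpha_zero, map_mul, map_inv, beta_t, beta_s]
      simp
    · show beta (alpha (FreeGroup.of 1)) = SemidirectProduct.inl (FreeGroup.of 1)
      rw [alpha_one, map_mul, map_mul, map_mul, map_inv, beta_t, beta_s, mul_inv_cancel_right]
      apply SemidirectProduct.ext
      · simp [phi_zero, zpowersHom_apply]
      · simp
  exact DFunLike.congr_fun h f

lemma alpha_inj : Function.Injective alpha := by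
  intro f g h
  have := congrArg beta h
  rw [beta_alpha, beta_alpha] at this
  exact SemidirectProduct.inl_injective this

lemma alpha_phi (f : F) : alpha (phi f) = s * alpha f * s⁻¹ := by
  have h : alpha.comp phi.toMonoidHom = (MulAut.conj s).toMonoidHom.comp alpha := by
    ext i
    fin_cases i
    · show alpha (phi (FreeGroup.of 0)) = s * alpha (FreeGroup.of 0) * s⁻¹
      rw [phi_zero, alpha_zero, alpha_one]
    · show alpha (phi (FreeGroup.of 1)) = s * alpha (FreeGroup.of 1) * s⁻¹
      rw [phi_one, map_mul, map_inv, alpha_zero, alpha_one]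
      have h := braid
      have e1 : (t * s⁻¹)⁻¹ * (s * (t * s⁻¹) * s⁻¹) = s * (t⁻¹ * (s * t * s) * s⁻¹ * s⁻¹ * s⁻¹) := by group
      rw [e1, h]
      group
  exact DFunLike.congr_fun h f

lemma alpha_phi_symm (f : F) : alpha (phi.symm f) = s⁻¹ * alpha f * s := by
  have h := alpha_phi (phi.symm f)
  rw [MulEquiv.apply_symm_apply] at h
  rw [h]
  group

/-- every element is the product of an element of the free subgroup and a power of `s` -/
lemma exists_form (g : B3) : ∃ (f : F) (k : ℤ), g = alpha f * s ^ k := by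
  have hconj : ∀ (k : ℤ) (f : F), ∃ f', s ^ k * alpha f = alpha f' * s ^ k := by
    intro k
    induction k using Int.induction_on with
    | zero => exact fun f => ⟨f, by simp⟩
    | succ k ih =>
      intro f
      obtain ⟨f', hf'⟩ := ih (phi f)
      refine ⟨f', ?_⟩
      rw [alpha_phi] at hf'
      rw [zpow_add, zpow_one]
      calc s ^ (k : ℤ) * s * alpha f = (s ^ (k : ℤ) * (s * alpha f * s⁻¹)) * s := by group
        _ = alpha f' * s ^ (k : ℤ) * s := by rw [hf']
        _ = _ := by group
    | pred k ih =>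
      intro f
      obtain ⟨f', hf'⟩ := ih (phi.symm f)
      refine ⟨f', ?_⟩
      rw [alpha_phi_symm] at hf'
      rw [zpow_sub, zpow_one]
      calc s ^ (-(k : ℤ)) * s⁻¹ * alpha f = (s ^ (-(k : ℤ)) * (s⁻¹ * alpha f * s)) * s⁻¹ := by group
        _ = alpha f' * s ^ (-(k : ℤ)) * s⁻¹ := by rw [hf']
        _ = _ := by group
  let H : Subgroup B3 :=
    { carrier := {g | ∃ (f : F) (k : ℤ), g = alpha f * s ^ k}
      one_mem' := ⟨1, 0, by simp⟩
      mul_mem' := by
        rintro _ _ ⟨f, k, rfl⟩ ⟨f', k', rfl⟩
        obtain ⟨f'', hf''⟩ := hconj k f'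
        refine ⟨f * f'', k + k', ?_⟩
        rw [map_mul, zpow_add]
        calc alpha f * s ^ k * (alpha f' * s ^ k') = alpha f * (s ^ k * alpha f') * s ^ k' := by group
          _ = _ := by rw [hf'']; group
      inv_mem' := by
        rintro _ ⟨f, k, rfl⟩
        obtain ⟨f', hf'⟩ := hconj (-k) f⁻¹
        refine ⟨f', -k, ?_⟩
        rw [← hf', mul_inv_rev, ← map_inv, zpow_neg] }
  refine top_le H ⟨1, 1, by simp⟩ ⟨FreeGroup.of 0, 1, ?_⟩ g
  rw [alpha_zero, zpow_one, inv_mul_cancel_right]

/-- the exponent sum -/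
def ex : B3 →* Multiplicative ℤ := PresentedGroup.toGroup (f := fun _ => Multiplicative.ofAdd 1) (by
  intro r hr
  rw [Set.mem_singleton_iff] at hr
  subst hr
  unfold rel
  simp)

lemma ex_s : ex s = Multiplicative.ofAdd 1 := by
  unfold ex s
  rw [PresentedGroup.toGroup.of]

lemma ex_t : ex t = Multiplicative.ofAdd 1 := by
  unfold ex t
  rw [PresentedGroup.toGroup.of]

lemma ex_z : ex z = Multiplicative.ofAdd 6 := by
  unfold z
  simp only [map_mul, ex_s, ex_t]
  rfl

lemma ex_alpha (f : F) : ex (alpha f) = 1 := by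
  have h : ex.comp alpha = 1 := by
    ext i
    fin_cases i
    · show ex (alpha (FreeGroup.of 0)) = 1
      rw [alpha_zero, map_mul, map_inv, ex_s, ex_t, mul_inv_cancel]
    · show ex (alpha (FreeGroup.of 1)) = 1
      rw [alpha_one, map_mul, map_mul, map_mul, map_inv, ex_s, ex_t]
      simp
  exact DFunLike.congr_fun h f

lemma ex_zpow (g : B3) (n k : ℤ) (h : ex g = Multiplicative.ofAdd n) : ex (g ^ k) = Multiplicative.ofAdd (k * n) := by
  rw [map_zpow, h, ← ofAdd_zsmul, smul_eq_mul]

/-- **the braid group** -/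
theorem ps_B3 : PS B3 := by
  refine ps_central z z_central fun M hM => ?_
  have hN : (Subgroup.zpowers (z ^ M)).Normal := by
    constructor
    intro n hn g
    obtain ⟨k, rfl⟩ := hn
    have h1 : Commute g ((z ^ M) ^ k) := ((show Commute g z from (z_central g).symm).pow_right M).zpow_right k
    have h2 : g * (z ^ M) ^ k * g⁻¹ = (z ^ M) ^ k := by
      rw [h1.eq, mul_inv_cancel_right]
    dsimp only
    rw [h2]
    exact ⟨k, rfl⟩
  obtain ⟨π, hπ⟩ : ∃ π : B3 →* B3 ⧸ Subgroup.zpowers (z ^ M), π = QuotientGroup.mk' (Subgroup.zpowers (z ^ M)) := ⟨_, rfl⟩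
  have hπs : Function.Surjective π := by
    rw [hπ]
    exact QuotientGroup.mk'_surjective _
  have hker : ∀ x, π x = 1 ↔ ∃ k : ℤ, x = z ^ (M * k) := by
    intro x
    rw [hπ, QuotientGroup.mk'_apply, QuotientGroup.eq_one_iff]
    constructor
    · rintro ⟨k, hk⟩
      refine ⟨k, ?_⟩
      rw [← hk, zpow_mul, zpow_natCast]
    · rintro ⟨k, rfl⟩
      refine ⟨k, ?_⟩
      dsimp only
      rw [zpow_mul, zpow_natCast]
  refine ⟨B3 ⧸ Subgroup.zpowers (z ^ M), inferInstance, π, ?_, fun x hx => (hker x).1 hx⟩
  -- the free subgroup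
  have hinj : Function.Injective (π.comp alpha) := by
    rw [injective_iff_map_eq_one]
    intro f hf
    obtain ⟨k, hk⟩ := (hker _).1 hf
    have h1 := congrArg ex hk
    rw [ex_alpha, ex_zpow z 6 _ ex_z] at h1
    have h2 : (M : ℤ) * k * 6 = 0 := by
      have : Multiplicative.ofAdd ((M : ℤ) * k * 6) = Multiplicative.ofAdd 0 := h1.symm
      exact Multiplicative.ofAdd.injective this
    have h3 : k = 0 := by
      have : (M : ℤ) ≠ 0 := by positivity
      rcases mul_eq_zero.1 h2 with h | h
      · rcases mul_eq_zero.1 h with h | h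
        · exact absurd h this
        · exact h
      · norm_num at h
    rw [h3, mul_zero, zpow_zero] at hk
    exact alpha_inj (hk.trans (map_one alpha).symm)
  -- its index
  have hfi : (π.comp alpha).range.FiniteIndex := by
    have hne : NeZero (6 * M) := ⟨by omega⟩
    obtain ⟨χ, hχ⟩ : ∃ χ : B3 →* Multiplicative (ZMod (6 * M)), χ = (AddMonoidHom.toMultiplicative (Int.castAddHom (ZMod (6 * M)))).comp ex := ⟨_, rfl⟩
    have h1 : χ.ker ≤ (π.comp alpha).range.comap π := by
      intro x hx
      obtain ⟨f, k, hfk⟩ := exists_form x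
      have h2 : ex x = Multiplicative.ofAdd k := by
        rw [hfk, map_mul, ex_alpha, one_mul, ex_zpow s 1 k ex_s, mul_one]
      have h3 : ((6 * M : ℕ) : ℤ) ∣ k := by
        rw [MonoidHom.mem_ker, hχ, MonoidHom.comp_apply, h2] at hx
        have h4 : ((k : ℤ) : ZMod (6 * M)) = 0 := hx
        exact (ZMod.intCast_zmod_eq_zero_iff_dvd k (6 * M)).1 h4
      obtain ⟨j, hj⟩ := h3
      obtain ⟨f', k', hfk'⟩ := exists_form (x * z ^ (-((M : ℤ) * j)))
      have h4 : ex (x * z ^ (-((M : ℤ) * j))) = Multiplicative.ofAdd k' := by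
        rw [hfk', map_mul, ex_alpha, one_mul, ex_zpow s 1 k' ex_s, mul_one]
      rw [map_mul, h2, ex_zpow z 6 _ ex_z, ← ofAdd_add] at h4
      have h5 : k + -((M : ℤ) * j) * 6 = k' := Multiplicative.ofAdd.injective h4
      have h6 : k' = 0 := by
        rw [← h5, hj]
        push_cast
        ring
      rw [h6, zpow_zero, mul_one] at hfk'
      refine ⟨f', ?_⟩
      rw [MonoidHom.comp_apply, ← hfk', map_mul]
      have h7 : π (z ^ (-((M : ℤ) * j))) = 1 := (hker _).2 ⟨-j, by rw [mul_neg]⟩
      rw [h7, mul_one]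
    have h2 : ((π.comp alpha).range.comap π).FiniteIndex := Subgroup.finiteIndex_of_le h1
    constructor
    have h3 := h2.index_ne_zero
    rwa [Subgroup.index_comap_of_surjective _ hπs] at h3
  exact ps_of_finiteIndex (π.comp alpha).range (ps_equiv (MonoidHom.ofInjective hinj) (ps_free (Fin 2)))

end Pool.Agent.H41N.DC
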