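import Pool.Agent.H41N.DC.B3
import Pool.Agent.H715R3.MedvA

/-!
# The double coset problem in the braid group on three strands
-/

set_option autoImplicit false
set_option linter.unusedSectionVars false

namespace Pool.Agent.H41N.DC

open scoped Pointwise
open Pool.Agent.H715R3.Medv (winv winv_primrec mk_winv reduce_primrec dval mem_normalClosure_iff rePred_exists)

/-- words in the generators and their inverses -/
abbrev Word : Type := List (Fin 2 × Bool)

/-- the element given by a word -/
def ev (w : Word) : B3 := PresentedGroup.mk ({rel} : Set (FreeGroup (Fin 2))) (FreeGroup.mk w)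

lemma ev_nil : ev [] = 1 := rfl

lemma ev_append (u v : Word) : ev (u ++ v) = ev u * ev v := by
  unfold ev
  rw [← FreeGroup.mul_mk, map_mul]

lemma ev_winv (w : Word) : ev (winv w) = (ev w)⁻¹ := by
  unfold ev
  rw [mk_winv, map_inv]

/-- the subgroup generated by finitely many words -/
def gen (L : List Word) : Subgroup B3 := Subgroup.closure {g | ∃ w ∈ L, ev w = g}

/-- the product of generators and their inverses -/
def sub (L : List Word) (U : List (ℕ × Bool)) : Word := U.flatMap fun p => bif p.2 then L.getD p.1 [] else winv (L.getD p.1 [])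

lemma ev_getD (L : List Word) (n : ℕ) : ev (L.getD n []) ∈ gen L := by
  by_cases h : n < L.length
  · rw [List.getD_eq_getElem _ _ h]
    exact Subgroup.subset_closure ⟨_, List.getElem_mem h, rfl⟩
  · rw [List.getD_eq_default _ _ (by omega), ev_nil]
    exact one_mem _

lemma sub_append (L : List Word) (U V : List (ℕ × Bool)) : sub L (U ++ V) = sub L U ++ sub L V := by
  unfold sub
  rw [List.flatMap_append]

lemma mem_gen_iff (L : List Word) (g : B3) : g ∈ gen L ↔ ∃ U, ev (sub L U) = g := by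
  constructor
  · intro h
    unfold gen at h
    induction h using Subgroup.closure_induction'' with
    | mem x hx =>
      obtain ⟨w, hw, rfl⟩ := hx
      obtain ⟨n, hn, rfl⟩ := List.getElem_of_mem hw
      refine ⟨[(n, true)], ?_⟩
      simp [sub, hn]
    | inv_mem x hx =>
      obtain ⟨w, hw, rfl⟩ := hx
      obtain ⟨n, hn, rfl⟩ := List.getElem_of_mem hw
      refine ⟨[(n, false)], ?_⟩
      simp [sub, hn, ev_winv]
    | one => exact ⟨[], rfl⟩
    | mul x y _ _ hx hy =>
      obtain ⟨U, rfl⟩ := hx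
      obtain ⟨V, rfl⟩ := hy
      exact ⟨U ++ V, by rw [sub_append, ev_append]⟩
  · rintro ⟨U, rfl⟩
    induction U with
    | nil =>
      rw [show sub L [] = [] from rfl, ev_nil]
      exact one_mem _
    | cons p U ih =>
      have h1 : sub L (p :: U) = (bif p.2 then L.getD p.1 [] else winv (L.getD p.1 [])) ++ sub L U := rfl
      rw [h1, ev_append]
      refine mul_mem ?_ ih
      cases p.2
      · simp only [cond_false]
        rw [ev_winv]
        exact inv_mem (ev_getD L _)
      · exact ev_getD L _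

lemma sub_primrec : Primrec₂ sub := by
  unfold sub
  have h1 : Primrec (fun x : (List Word × List (ℕ × Bool)) × (ℕ × Bool) => x.1.1.getD x.2.1 []) :=
    (Primrec.list_getD ([] : Word)).comp (Primrec.fst.comp Primrec.fst) (Primrec.fst.comp Primrec.snd)
  refine Primrec.list_flatMap Primrec.snd ?_
  exact (Primrec.cond (Primrec.snd.comp Primrec.snd) h1 (winv_primrec.comp h1)).to₂

/-- the relator as a word -/
def rw0 (_ : ℕ) : Word := [(0, true), (1, true), (0, true), (1, false), (0, false), (1, false)]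

lemma mk_rw0 (n : ℕ) : FreeGroup.mk (rw0 n) = rel := rfl

lemma ev_eq_iff (w w' : Word) : ev w = ev w' ↔ ∃ D, FreeGroup.reduce (w ++ winv w') = FreeGroup.reduce (dval rw0 D) := by
  have h1 : ev w = ev w' ↔ ev (w ++ winv w') = 1 := by
    rw [ev_append, ev_winv, mul_inv_eq_one]
  rw [h1]
  unfold ev
  rw [PresentedGroup.mk_eq_one_iff]
  have h2 : ({rel} : Set (FreeGroup (Fin 2))) = Set.range (fun n => FreeGroup.mk (rw0 n)) := by
    ext x
    simp [mk_rw0]
  rw [h2, mem_normalClosure_iff]
  constructor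
  · rintro ⟨D, hD⟩
    exact ⟨D, FreeGroup.reduce.sound hD⟩
  · rintro ⟨D, hD⟩
    exact ⟨D, FreeGroup.reduce.exact hD⟩

/-- the inputs: generators of `A` and `B`, and the words `g`, `h` -/
abbrev Inp : Type := (List Word × List Word) × (Word × Word)

/-- `g` is in `A h B` -/
def Pos (q : Inp) : Prop := ∃ a ∈ gen q.1.1, ∃ b ∈ gen q.1.2, ev q.2.1 = a * ev q.2.2 * b

/-- the data of a proof of `Pos` -/
abbrev PD : Type := (List (ℕ × Bool) × List (ℕ × Bool)) × List (Word × (ℕ × Bool))

lemma pos_iff (q : Inp) : Pos q ↔ ∃ d : PD, FreeGroup.reduce (q.2.1 ++ winv (sub q.1.1 d.1.1 ++ (q.2.2 ++ sub q.1.2 d.1.2))) =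
    FreeGroup.reduce (dval rw0 d.2) := by
  constructor
  · rintro ⟨a, ha, b, hb, h⟩
    obtain ⟨U, rfl⟩ := (mem_gen_iff _ _).1 ha
    obtain ⟨V, rfl⟩ := (mem_gen_iff _ _).1 hb
    have h1 : ev q.2.1 = ev (sub q.1.1 U ++ (q.2.2 ++ sub q.1.2 V)) := by
      rw [h, ev_append, ev_append, mul_assoc]
    obtain ⟨D, hD⟩ := (ev_eq_iff _ _).1 h1
    exact ⟨((U, V), D), hD⟩
  · rintro ⟨d, hd⟩
    have h1 := (ev_eq_iff _ _).2 ⟨_, hd⟩
    refine ⟨_, (mem_gen_iff _ _).2 ⟨d.1.1, rfl⟩, _, (mem_gen_iff _ _).2 ⟨d.1.2, rfl⟩, ?_⟩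
    rw [h1, ev_append, ev_append, mul_assoc]

/-- a general form of projection -/
lemma re_exists {α β : Type} [Primcodable α] [Primcodable β] {R : α → β → Prop} (hR : PrimrecPred fun x : α × β => R x.1 x.2) :
    REPred fun a => ∃ b, R a b := by
  classical
  let R' : α → ℕ → Bool := fun a n => ((Encodable.decode n : Option β).map (fun b => decide (R a b))).getD false
  have hR' : Primrec₂ R' := by
    refine Primrec.option_getD.comp (Primrec.option_map (Primrec.decode.comp Primrec.snd) ?_) (Primrec.const false)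
    have h1 : PrimrecPred (fun p : (α × ℕ) × β => R p.1.1 p.2) :=
      hR.comp (Primrec.pair (Primrec.fst.comp Primrec.fst) Primrec.snd)
    exact (h1.decide).to₂
  refine REPred.of_eq (rePred_exists hR'.to_comp) ?_
  intro a
  constructor
  · rintro ⟨n, hn⟩
    simp only [R'] at hn
    cases hD : (Encodable.decode n : Option β) with
    | none => rw [hD] at hn; simp at hn
    | some b =>
      rw [hD] at hn
      simp only [Option.map_some, Option.getD_some, decide_eq_true_eq] at hn
      exact ⟨b, hn⟩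
  · rintro ⟨b, hb⟩
    refine ⟨Encodable.encode b, ?_⟩
    simp only [R', Encodable.encodek, Option.map_some, Option.getD_some, decide_eq_true_eq]
    exact hb

lemma dval_primrec : Primrec (dval (r := 2) rw0) := by
  refine Primrec.list_flatMap Primrec.id ?_
  have d : Primrec (fun p : List (Word × (ℕ × Bool)) × (Word × (ℕ × Bool)) => p.2) := Primrec.snd
  have h1 := Primrec.fst.comp d
  have h2 : Primrec (fun p : List (Word × (ℕ × Bool)) × (Word × (ℕ × Bool)) => rw0 p.2.2.1) := Primrec.const (rw0 0)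
  have h3 := Primrec.snd.comp (Primrec.snd.comp d)
  exact Primrec.list_append.comp h1 (Primrec.list_append.comp
    (Primrec.cond h3 h2 (winv_primrec.comp h2)) (winv_primrec.comp h1))

theorem re_pos : REPred Pos := by
  refine REPred.of_eq (re_exists (β := PD) (R := fun q d => FreeGroup.reduce (q.2.1 ++ winv (sub q.1.1 d.1.1 ++ (q.2.2 ++ sub q.1.2 d.1.2))) =
    FreeGroup.reduce (dval rw0 d.2)) ?_) fun q => (pos_iff q).symm
  have hLA : Primrec (fun x : Inp × PD => x.1.1.1) := Primrec.fst.comp (Primrec.fst.comp Primrec.fst)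
  have hLB : Primrec (fun x : Inp × PD => x.1.1.2) := Primrec.snd.comp (Primrec.fst.comp Primrec.fst)
  have hg : Primrec (fun x : Inp × PD => x.1.2.1) := Primrec.fst.comp (Primrec.snd.comp Primrec.fst)
  have hh : Primrec (fun x : Inp × PD => x.1.2.2) := Primrec.snd.comp (Primrec.snd.comp Primrec.fst)
  have hU : Primrec (fun x : Inp × PD => x.2.1.1) := Primrec.fst.comp (Primrec.fst.comp Primrec.snd)
  have hV : Primrec (fun x : Inp × PD => x.2.1.2) := Primrec.snd.comp (Primrec.fst.comp Primrec.snd)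
  have hD : Primrec (fun x : Inp × PD => x.2.2) := Primrec.snd.comp Primrec.snd
  exact Primrec.eq.comp (reduce_primrec.comp (Primrec.list_append.comp hg (winv_primrec.comp
    (Primrec.list_append.comp (sub_primrec.comp hLA hU) (Primrec.list_append.comp hh (sub_primrec.comp hLB hV))))))
    (reduce_primrec.comp (dval_primrec.comp hD))

/-! ### Finite actions -/

/-- four tables -/
abbrev Tab : Type := (List ℕ × List ℕ) × (List ℕ × List ℕ)

/-- the table of a letter -/
def tab (T : Tab) (x : Fin 2 × Bool) : List ℕ :=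
  bif decide (x.1 = 0) then (bif x.2 then T.1.1 else T.1.2) else (bif x.2 then T.2.1 else T.2.2)

/-- the action of a letter, from the right -/
def step (T : Tab) (x : Fin 2 × Bool) (i : ℕ) : ℕ := (tab T x).getD i 0

/-- the action of a word, from the right -/
def run (T : Tab) (w : Word) (i : ℕ) : ℕ := w.foldl (fun i x => step T x i) i

/-- the number of points and the base point, the tables and two sets of points -/
abbrev Cert : Type := (ℕ × ℕ) × (Tab × (List ℕ × List ℕ))

/-- the letters -/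
def letters : List (Fin 2 × Bool) := [(0, true), (0, false), (1, true), (1, false)]

lemma mem_letters (x : Fin 2 × Bool) : x ∈ letters := by
  obtain ⟨i, b⟩ := x
  fin_cases i <;> cases b <;> simp [letters]

/-- the tables define an action on `m` points -/
def Act (m : ℕ) (T : Tab) : Prop := ∀ i < m, (∀ x ∈ letters, step T x i < m ∧ step T (x.1, !x.2) (step T x i) = i) ∧
  run T [(0, true), (1, true), (0, true)] i = run T [(1, true), (0, true), (1, true)] i

/-- the set `S` is preserved by the words in `L` and their inverses -/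
def Inv (m : ℕ) (T : Tab) (L : List Word) (S : List ℕ) : Prop := ∀ i ∈ S, i < m ∧ ∀ w ∈ L, run T w i ∈ S ∧ run T (winv w) i ∈ S

/-- the certificate proves that `g` is not in `A h B` -/
def Chk (q : Inp) (c : Cert) : Prop :=
  Act c.1.1 c.2.1 ∧ (c.1.2 ∈ c.2.2.1) ∧ Inv c.1.1 c.2.1 q.1.1 c.2.2.1 ∧ (∀ i ∈ c.2.2.1, run c.2.1 q.2.2 i ∈ c.2.2.2) ∧
  Inv c.1.1 c.2.1 q.1.2 c.2.2.2 ∧ ¬ run c.2.1 q.2.1 c.1.2 ∈ c.2.2.2

section
variable {m : ℕ} {T : Tab} (h : Act m T)
include h

/-- the permutation of a letter -/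
def pm (x : Fin 2 × Bool) : Equiv.Perm (Fin m) where
  toFun i := ⟨step T x i, ((h i i.2).1 x (mem_letters x)).1⟩
  invFun i := ⟨step T (x.1, !x.2) i, ((h i i.2).1 _ (mem_letters _)).1⟩
  left_inv i := Fin.ext ((h i i.2).1 x (mem_letters x)).2
  right_inv i := by
    have h1 := ((h i i.2).1 (x.1, !x.2) (mem_letters _)).2
    simp only [Bool.not_not] at h1
    exact Fin.ext h1

/-- the action of the free group -/
def rho0 : FreeGroup (Fin 2) →* (Equiv.Perm (Fin m))ᵐᵒᵖ := FreeGroup.lift fun j => MulOpposite.op (pm h (j, true))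

lemma rho0_letter (x : Fin 2 × Bool) : rho0 h (FreeGroup.mk [x]) = MulOpposite.op (pm h x) := by
  obtain ⟨j, b⟩ := x
  cases b
  · have h1 : (FreeGroup.mk [(j, false)] : FreeGroup (Fin 2)) = (FreeGroup.of j)⁻¹ := rfl
    rw [h1, map_inv]
    unfold rho0
    rw [FreeGroup.lift_apply_of, ← MulOpposite.op_inv]
    congr 1
  · have h1 : (FreeGroup.mk [(j, true)] : FreeGroup (Fin 2)) = FreeGroup.of j := rfl
    rw [h1]
    unfold rho0
    rw [FreeGroup.lift_apply_of]

lemma rho0_run (w : Word) (i : Fin m) : (((rho0 h (FreeGroup.mk w)).unop i : Fin m) : ℕ) = run T w i := by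
  induction w generalizing i with
  | nil =>
    have h1 : (FreeGroup.mk [] : FreeGroup (Fin 2)) = 1 := rfl
    rw [h1, map_one]
    rfl
  | cons x w ih =>
    have h1 : (FreeGroup.mk (x :: w) : FreeGroup (Fin 2)) = FreeGroup.mk [x] * FreeGroup.mk w := by
      rw [FreeGroup.mul_mk]
      rfl
    rw [h1, map_mul, MulOpposite.unop_mul, Equiv.Perm.mul_apply, ih, rho0_letter]
    rfl

/-- the action of the braid group -/
def rho : B3 →* (Equiv.Perm (Fin m))ᵐᵒᵖ := PresentedGroup.toGroup (f := fun j => MulOpposite.op (pm h (j, true))) (by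
  intro r hr
  rw [Set.mem_singleton_iff] at hr
  subst hr
  show rho0 h rel = 1
  have h1 : rel = FreeGroup.mk [(0, true), (1, true), (0, true)] * (FreeGroup.mk [(1, true), (0, true), (1, true)])⁻¹ := rfl
  rw [h1, map_mul, map_inv, mul_inv_eq_one]
  apply MulOpposite.unop_injective
  ext i
  rw [rho0_run, rho0_run]
  exact (h i i.2).2)

lemma rho_run (w : Word) (i : Fin m) : (((rho h (ev w)).unop i : Fin m) : ℕ) = run T w i := rho0_run h w i

lemma inv_gen {L : List Word} {S : List ℕ} (hS : Inv m T L S) (a : B3) (ha : a ∈ gen L) (i : Fin m) (hi : (i : ℕ) ∈ S) :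
    (((rho h a).unop i : Fin m) : ℕ) ∈ S := by
  unfold gen at ha
  induction ha using Subgroup.closure_induction'' generalizing i with
  | mem x hx =>
    obtain ⟨w, hw, rfl⟩ := hx
    rw [rho_run]
    exact ((hS i hi).2 w hw).1
  | inv_mem x hx =>
    obtain ⟨w, hw, rfl⟩ := hx
    rw [← ev_winv, rho_run]
    exact ((hS i hi).2 w hw).2
  | one =>
    rw [map_one]
    exact hi
  | mul x y _ _ hx hy =>
    rw [map_mul, MulOpposite.unop_mul, Equiv.Perm.mul_apply]
    exact hy _ (hx _ hi)

end

/-- soundness -/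
lemma not_pos_of_chk {q : Inp} {c : Cert} (h : Chk q c) : ¬ Pos q := by
  obtain ⟨h1, h2, h3, h4, h5, h6⟩ := h
  rintro ⟨a, ha, b, hb, hab⟩
  apply h6
  have hi : c.1.2 < c.1.1 := (h3 _ h2).1
  obtain ⟨i, hi'⟩ : ∃ i : Fin c.1.1, (i : ℕ) = c.1.2 := ⟨⟨_, hi⟩, rfl⟩
  rw [← hi', ← rho_run h1, hab, map_mul, map_mul, MulOpposite.unop_mul, MulOpposite.unop_mul, Equiv.Perm.mul_apply, Equiv.Perm.mul_apply]
  refine inv_gen h1 h5 b hb _ ?_
  rw [rho_run]
  refine h4 _ ?_
  refine inv_gen h1 h3 a ha _ ?_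
  rw [hi']
  exact h2

/-- completeness -/
lemma exists_chk {q : Inp} (h : ¬ Pos q) : ∃ c, Chk q c := by
  classical
  obtain ⟨⟨LA, LB⟩, g, x⟩ := q
  have hfgA : (gen LA).FG := by
    rw [Subgroup.fg_iff]
    refine ⟨_, rfl, ?_⟩
    have : {g | ∃ w ∈ LA, ev w = g} = ev '' {w | w ∈ LA} := rfl
    rw [this]
    exact (List.finite_toSet LA).image ev
  have hfgB : ((gen LB).map (MulAut.conj (ev x)).toMonoidHom).FG := by
    apply fg_map
    rw [Subgroup.fg_iff]
    refine ⟨_, rfl, ?_⟩
    have : {g | ∃ w ∈ LB, ev w = g} = ev '' {w | w ∈ LB} := rfl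
    rw [this]
    exact (List.finite_toSet LB).image ev
  have hsep := (ps_B3 _ _ hfgA hfgB).trans 1 (ev x)
  have hg : ev g ∉ ((fun y => 1 * y * ev x) '' (((gen LA : Subgroup B3) : Set B3) * (((gen LB).map (MulAut.conj (ev x)).toMonoidHom : Subgroup B3) : Set B3))) := by
    rintro ⟨_, ⟨a, ha, _, ⟨b, hb, rfl⟩, rfl⟩, hab⟩
    apply h
    refine ⟨a, ha, b, hb, ?_⟩
    show ev g = _
    rw [← hab]
    show 1 * (a * (ev x * b * (ev x)⁻¹)) * ev x = a * ev x * b
    group
  obtain ⟨N, hN, hN', hn⟩ := hsep _ hg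
  obtain ⟨π, hπ⟩ : ∃ π : B3 →* B3 ⧸ N, π = QuotientGroup.mk' N := ⟨_, rfl⟩
  have hdis : ∀ a ∈ gen LA, ∀ b ∈ gen LB, π (ev g) ≠ π (a * ev x * b) := by
    intro a ha b hb he
    rw [hπ, QuotientGroup.mk'_apply, QuotientGroup.mk'_apply, QuotientGroup.eq] at he
    apply hn _ he
    refine ⟨a * (ev x * b * (ev x)⁻¹), ⟨a, ha, _, ⟨b, hb, rfl⟩, rfl⟩, ?_⟩
    dsimp only
    group
  obtain ⟨m, hm⟩ : ∃ m, m = Nat.card (B3 ⧸ N) := ⟨_, rfl⟩
  have e : (B3 ⧸ N) ≃ Fin m := by
    rw [hm]
    exact Finite.equivFin _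
  -- the tables
  let tb : B3 → List ℕ := fun y => List.ofFn fun i : Fin m => (e (e.symm i * π y) : ℕ)
  let T : Tab := ((tb (ev [(0, true)]), tb (ev [(0, false)])), (tb (ev [(1, true)]), tb (ev [(1, false)])))
  have hstep : ∀ (y : Fin 2 × Bool) (u : B3 ⧸ N), step T y (e u) = e (u * π (ev [y])) := by
    rintro ⟨j, b⟩ u
    have key : ∀ y : B3, (tb y).getD (e u : ℕ) 0 = e (u * π y) := by
      intro y
      rw [List.getD_eq_getElem _ _ (by simp [tb])]
      simp [tb]
    fin_cases j <;> cases b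
    · exact key _
    · exact key _
    · exact key _
    · exact key _
  have hrun : ∀ (w : Word) (u : B3 ⧸ N), run T w (e u) = e (u * π (ev w)) := by
    intro w
    induction w with
    | nil =>
      intro u
      rw [ev_nil, map_one, mul_one]
      rfl
    | cons y w ih =>
      intro u
      have h1 : run T (y :: w) (e u) = run T w (step T y (e u)) := rfl
      rw [h1, hstep, ih, show y :: w = [y] ++ w from rfl, ev_append, map_mul π (ev [y]), mul_assoc]
  have hmem : ∀ (X : Set (B3 ⧸ N)) (u : B3 ⧸ N), (e u : ℕ) ∈ ((Finset.univ.filter fun i : Fin m => e.symm i ∈ X).image Fin.val).toList ↔ u ∈ X := by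
    intro X u
    rw [Finset.mem_toList, Finset.mem_image]
    constructor
    · rintro ⟨i, hi, hi2⟩
      have : i = e u := Fin.ext hi2
      rw [this, Finset.mem_filter] at hi
      simpa using hi.2
    · intro hu
      exact ⟨e u, by simpa using hu, rfl⟩
  have hall : ∀ (X : Set (B3 ⧸ N)) (i : ℕ), i ∈ ((Finset.univ.filter fun i : Fin m => e.symm i ∈ X).image Fin.val).toList → ∃ u ∈ X, i = e u := by
    intro X i hi
    rw [Finset.mem_toList, Finset.mem_image] at hi
    obtain ⟨i, hi, rfl⟩ := hi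
    rw [Finset.mem_filter] at hi
    exact ⟨e.symm i, hi.2, by simp⟩
  have hInv : ∀ (L : List Word) (X : Set (B3 ⧸ N)), (∀ u ∈ X, ∀ a ∈ gen L, u * π a ∈ X) →
      Inv m T L ((Finset.univ.filter fun i : Fin m => e.symm i ∈ X).image Fin.val).toList := by
    intro L X hX i hi
    obtain ⟨u, hu, rfl⟩ := hall X i hi
    refine ⟨(e u).2, fun w hw => ?_⟩
    have hw' : ev w ∈ gen L := Subgroup.subset_closure ⟨w, hw, rfl⟩
    rw [hrun, hrun, hmem, hmem]
    exact ⟨hX u hu _ hw', hX u hu _ (by rw [ev_winv]; exact inv_mem hw')⟩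
  refine ⟨((m, (e 1 : ℕ)), (T, (((Finset.univ.filter fun i : Fin m => e.symm i ∈ {u : B3 ⧸ N | ∃ a ∈ gen LA, u = π a}).image Fin.val).toList,
    ((Finset.univ.filter fun i : Fin m => e.symm i ∈ {u : B3 ⧸ N | ∃ a ∈ gen LA, ∃ b ∈ gen LB, u = π (a * ev x * b)}).image Fin.val).toList))), ?_, ?_, ?_, ?_, ?_, ?_⟩
  · intro i hi
    obtain ⟨u, hu⟩ : ∃ u, i = (e u : ℕ) := ⟨e.symm ⟨i, hi⟩, by simp⟩
    subst hu
    refine ⟨fun y _ => ?_, ?_⟩
    · dsimp only
      rw [hstep, hstep]
      refine ⟨(e _).2, ?_⟩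
      have h1 : ev [(y.1, !y.2)] = (ev [y])⁻¹ := by
        rw [← ev_winv]
        rfl
      rw [h1, map_inv, mul_inv_cancel_right]
    · dsimp only
      rw [hrun, hrun]
      have h1 : ev [(0, true), (1, true), (0, true)] = ev [(1, true), (0, true), (1, true)] := braid
      rw [h1]
  · rw [hmem]
    exact ⟨1, one_mem _, (map_one π).symm⟩
  · refine hInv _ _ ?_
    rintro _ ⟨a, ha, rfl⟩ a' ha'
    exact ⟨a * a', mul_mem ha ha', (map_mul π a a').symm⟩
  · intro i hi
    obtain ⟨u, ⟨a, ha, rfl⟩, rfl⟩ := hall _ i hi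
    show run T x (e (π a)) ∈ _
    rw [hrun, hmem]
    exact ⟨a, ha, 1, one_mem _, by rw [mul_one, map_mul]⟩
  · refine hInv _ _ ?_
    rintro _ ⟨a, ha, b, hb, rfl⟩ b' hb'
    exact ⟨a, ha, b * b', mul_mem hb hb', by rw [← map_mul, mul_assoc _ b b']⟩
  · show ¬ run T g (e 1) ∈ _
    rw [hrun, hmem, one_mul]
    rintro ⟨a, ha, b, hb, hab⟩
    exact hdis a ha b hb hab

/-! ### The certificates can be checked -/

lemma tab_primrec : Primrec₂ tab := by
  unfold tab
  refine Primrec.cond (Primrec.eq.decide.comp (Primrec.fst.comp Primrec.snd) (Primrec.const 0)) (Primrec.cond (Primrec.snd.comp Primrec.snd)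
    (Primrec.fst.comp (Primrec.fst.comp Primrec.fst)) (Primrec.snd.comp (Primrec.fst.comp Primrec.fst)))
    (Primrec.cond (Primrec.snd.comp Primrec.snd)
    (Primrec.fst.comp (Primrec.snd.comp Primrec.fst)) (Primrec.snd.comp (Primrec.snd.comp Primrec.fst)))

lemma step_primrec {α : Type} [Primcodable α] {T : α → Tab} {x : α → Fin 2 × Bool} {i : α → ℕ} (hT : Primrec T) (hx : Primrec x) (hi : Primrec i) :
    Primrec fun a => step (T a) (x a) (i a) :=
  (Primrec.list_getD 0).comp (tab_primrec.comp hT hx) hi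

lemma run_primrec {α : Type} [Primcodable α] {T : α → Tab} {w : α → Word} {i : α → ℕ} (hT : Primrec T) (hw : Primrec w) (hi : Primrec i) :
    Primrec fun a => run (T a) (w a) (i a) := by
  unfold run
  refine Primrec.list_foldl (h := fun a (p : ℕ × (Fin 2 × Bool)) => step (T a) p.2 p.1) hw hi ?_
  exact (step_primrec (hT.comp Primrec.fst) (Primrec.snd.comp Primrec.snd) (Primrec.fst.comp Primrec.snd)).to₂

lemma mem_primrec {α : Type} [Primcodable α] {i : α → ℕ} {S : α → List ℕ} (hi : Primrec i) (hS : Primrec S) : PrimrecPred fun a => i a ∈ S a := by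
  have h1 : PrimrecRel fun (L : List ℕ) (b : ℕ) => ∃ a ∈ L, a = b := PrimrecRel.exists_mem_list Primrec.eq
  refine (h1.comp hS hi).of_eq fun a => ?_
  simp

lemma all_primrec {α β : Type} [Primcodable α] [Primcodable β] {L : α → List β} (hL : Primrec L) {R : α → β → Prop}
    (hR : PrimrecPred fun x : α × β => R x.1 x.2) : PrimrecPred fun a => ∀ b ∈ L a, R a b := by
  have h0 : PrimrecRel fun (b : β) (a : α) => R a b := hR.comp (Primrec.pair Primrec.snd Primrec.fst)
  exact h0.forall_mem_list.comp hL Primrec.id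

lemma inv_primrec {α : Type} [Primcodable α] {m : α → ℕ} {T : α → Tab} {L : α → List Word} {S : α → List ℕ} (hm : Primrec m) (hT : Primrec T)
    (hL : Primrec L) (hS : Primrec S) : PrimrecPred fun a => Inv (m a) (T a) (L a) (S a) := by
  unfold Inv
  refine all_primrec hS ?_
  refine PrimrecPred.and ?_ ?_
  · exact Primrec.nat_lt.comp Primrec.snd (hm.comp Primrec.fst)
  · refine all_primrec (hL.comp Primrec.fst) ?_
    have hT' : Primrec (fun x : (α × ℕ) × Word => T x.1.1) := hT.comp (Primrec.fst.comp Primrec.fst)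
    have hS' : Primrec (fun x : (α × ℕ) × Word => S x.1.1) := hS.comp (Primrec.fst.comp Primrec.fst)
    have hi : Primrec (fun x : (α × ℕ) × Word => x.1.2) := Primrec.snd.comp Primrec.fst
    exact (mem_primrec (run_primrec hT' Primrec.snd hi) hS').and (mem_primrec (run_primrec hT' (winv_primrec.comp Primrec.snd) hi) hS')

lemma act_primrec {α : Type} [Primcodable α] {m : α → ℕ} {T : α → Tab} (hm : Primrec m) (hT : Primrec T) :
    PrimrecPred fun a => Act (m a) (T a) := by
  have h1 : PrimrecPred fun a => ∀ i ∈ List.range (m a), (∀ x ∈ letters, step (T a) x i < m a ∧ step (T a) (x.1, !x.2) (step (T a) x i) = i) ∧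
      run (T a) [(0, true), (1, true), (0, true)] i = run (T a) [(1, true), (0, true), (1, true)] i := by
    refine all_primrec (Primrec.list_range.comp hm) ?_
    have hT1 : Primrec (fun x : α × ℕ => T x.1) := hT.comp Primrec.fst
    refine PrimrecPred.and ?_ ?_
    · refine all_primrec (Primrec.const _) ?_
      have hT' : Primrec (fun x : (α × ℕ) × (Fin 2 × Bool) => T x.1.1) := hT.comp (Primrec.fst.comp Primrec.fst)
      have hi : Primrec (fun x : (α × ℕ) × (Fin 2 × Bool) => x.1.2) := Primrec.snd.comp Primrec.fst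
      have hx : Primrec (fun x : (α × ℕ) × (Fin 2 × Bool) => x.2) := Primrec.snd
      have hst := step_primrec hT' hx hi
      refine PrimrecPred.and (Primrec.nat_lt.comp hst (hm.comp (Primrec.fst.comp Primrec.fst))) ?_
      exact Primrec.eq.comp (step_primrec hT' (Primrec.pair (Primrec.fst.comp hx) (Primrec.not.comp (Primrec.snd.comp hx))) hst) hi
    · exact Primrec.eq.comp (run_primrec hT1 (Primrec.const _) Primrec.snd) (run_primrec hT1 (Primrec.const _) Primrec.snd)
  refine h1.of_eq fun a => ?_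
  simp only [List.mem_range]
  rfl

theorem re_neg : REPred fun q => ¬ Pos q := by
  refine REPred.of_eq (re_exists (β := Cert) (R := Chk) ?_) fun q => ⟨fun ⟨_, h⟩ => not_pos_of_chk h, exists_chk⟩
  have hLA : Primrec (fun x : Inp × Cert => x.1.1.1) := Primrec.fst.comp (Primrec.fst.comp Primrec.fst)
  have hLB : Primrec (fun x : Inp × Cert => x.1.1.2) := Primrec.snd.comp (Primrec.fst.comp Primrec.fst)
  have hg : Primrec (fun x : Inp × Cert => x.1.2.1) := Primrec.fst.comp (Primrec.snd.comp Primrec.fst)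
  have hh : Primrec (fun x : Inp × Cert => x.1.2.2) := Primrec.snd.comp (Primrec.snd.comp Primrec.fst)
  have hm : Primrec (fun x : Inp × Cert => x.2.1.1) := Primrec.fst.comp (Primrec.fst.comp Primrec.snd)
  have hi : Primrec (fun x : Inp × Cert => x.2.1.2) := Primrec.snd.comp (Primrec.fst.comp Primrec.snd)
  have hT : Primrec (fun x : Inp × Cert => x.2.2.1) := Primrec.fst.comp (Primrec.snd.comp Primrec.snd)
  have hS1 : Primrec (fun x : Inp × Cert => x.2.2.2.1) := Primrec.fst.comp (Primrec.snd.comp (Primrec.snd.comp Primrec.snd))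
  have hS2 : Primrec (fun x : Inp × Cert => x.2.2.2.2) := Primrec.snd.comp (Primrec.snd.comp (Primrec.snd.comp Primrec.snd))
  refine (act_primrec hm hT).and ((mem_primrec hi hS1).and ((inv_primrec hm hT hLA hS1).and (PrimrecPred.and ?_
    ((inv_primrec hm hT hLB hS2).and (mem_primrec (run_primrec hT hg hi) hS2).not))))
  refine all_primrec hS1 ?_
  exact mem_primrec (run_primrec (hT.comp Primrec.fst) (hh.comp Primrec.fst) Primrec.snd) (hS2.comp Primrec.fst)

/-- **the double coset problem is solvable** -/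
theorem main : ComputablePred Pos := ComputablePred.computable_iff_re_compl_re'.2 ⟨re_pos, re_neg⟩

end Pool.Agent.H41N.DC
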