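import Mathlib

/-!
# Products of two finitely generated subgroups of a free group are closed in the profinite topology

This is a theorem of Niblo. The proof given here is a finite labelled version of the argument of Stallings: the vertices of
a finite piece of the coset graph of `A` are labelled by sets of vertices of a finite piece of the coset graph of `B`, and
finitely many vertices are added such that every label occurs equally often.
-/

set_option autoImplicit false
set_option linter.unusedSectionVars false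

namespace Pool.Agent.H41N.DC

open Finset

/-- extension of a partial injection to a permutation, compatible with labels -/
lemma ext_perm {Ω τ : Type*} [DecidableEq Ω] (c o : Ω → τ) (π₀ : Equiv.Perm Ω) (h₀ : ∀ x, c (π₀ x) = o x)
    (f : Ω → Ω) (D : Finset Ω) (hf : Set.InjOn f D) (hc : ∀ x ∈ D, c (f x) = o x) :
    ∃ π : Equiv.Perm Ω, (∀ x ∈ D, π x = f x) ∧ ∀ x, c (π x) = o x := by
  induction D using Finset.induction_on with
  | empty => exact ⟨π₀, by simp, h₀⟩
  | insert a D ha ih =>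
    obtain ⟨π, h1, h2⟩ := ih (hf.mono (by simp)) (fun x hx => hc x (mem_insert_of_mem hx))
    refine ⟨π.trans (Equiv.swap (π a) (f a)), ?_, ?_⟩
    · intro x hx
      rcases mem_insert.1 hx with rfl | hx
      · simp [Equiv.swap_apply_left]
      · have e1 : π x ≠ π a := fun h => ha (π.injective h ▸ hx)
        have e2 : π x ≠ f a := by
          rw [h1 x hx]
          intro h
          have := hf (mem_insert_of_mem hx) (mem_insert_self a D) h
          exact ha (this ▸ hx)
        rw [Equiv.trans_apply, Equiv.swap_apply_of_ne_of_ne e1 e2, h1 x hx]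
    · intro x
      have h5 := hc a (mem_insert_self a D)
      rw [Equiv.trans_apply, Equiv.swap_apply_def]
      split_ifs with h3 h4
      · rw [h5, π.injective h3]
      · rw [h2 a, ← h5, ← h4, h2]
      · exact h2 x

section
variable {G : Type} [Group G] {A B : Subgroup G} (Y : Set (G ⧸ A)) (V : Set (G ⧸ B))

/-- the label of a coset of `A` -/
def T (x : G ⧸ A) : Set V := {v | ∃ f : G, (f : G ⧸ A) = x ∧ (f : G ⧸ B) = v}

/-- the elements of `V` reached from `U` by `s` -/
def out (s : G) (U : Set V) : Set V := {v | ∃ u ∈ U, s • (u : G ⧸ B) = v}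

/-- the elements of `U` reached from `V` by `s` -/
def inn (s : G) (U : Set V) : Set V := {v | v ∈ U ∧ ∃ u : V, s • (u : G ⧸ B) = v}

lemma T_edge (s : G) (x : G ⧸ A) : inn V s (T V (s • x)) = out V s (T V x) := by
  ext v
  constructor
  · rintro ⟨⟨f, hf1, hf2⟩, u, hu⟩
    refine ⟨u, ⟨s⁻¹ * f, ?_, ?_⟩, hu⟩
    · have : ((s⁻¹ * f : G) : G ⧸ A) = s⁻¹ • (f : G ⧸ A) := rfl
      rw [this, hf1, inv_smul_smul]
    · have : ((s⁻¹ * f : G) : G ⧸ B) = s⁻¹ • (f : G ⧸ B) := rfl
      rw [this, hf2, ← hu, inv_smul_smul]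
  · rintro ⟨u, ⟨f, hf1, hf2⟩, hu⟩
    refine ⟨⟨s * f, ?_, ?_⟩, u, hu⟩
    · have : ((s * f : G) : G ⧸ A) = s • (f : G ⧸ A) := rfl
      rw [this, hf1]
    · have : ((s * f : G) : G ⧸ B) = s • (f : G ⧸ B) := rfl
      rw [this, hf2, hu]

lemma exists_hat [Finite V] (s : G) : ∃ π : Equiv.Perm V, ∀ u v : V, s • (u : G ⧸ B) = v → π u = v := by
  classical
  have : Fintype V := Fintype.ofFinite _
  obtain ⟨π, h1, _⟩ := ext_perm (fun _ : V => ()) (fun _ => ()) (Equiv.refl V) (fun _ => rfl)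
    (fun u => if h : ∃ v : V, s • (u : G ⧸ B) = v then h.choose else u) (univ.filter fun u : V => ∃ v : V, s • (u : G ⧸ B) = v)
    (by
      intro u hu u' hu' h
      rw [mem_coe, mem_filter] at hu hu'
      dsimp only at h
      rw [dif_pos hu.2, dif_pos hu'.2] at h
      have e1 := hu.2.choose_spec
      have e2 := hu'.2.choose_spec
      rw [h] at e1
      exact Subtype.ext (smul_left_cancel s (e1.trans e2.symm))) (fun _ _ => rfl)
  refine ⟨π, fun u v huv => ?_⟩
  have hex : ∃ v : V, s • (u : G ⧸ B) = v := ⟨v, huv⟩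
  have h2 := h1 u (by rw [mem_filter]; exact ⟨mem_univ _, hex⟩)
  rw [h2, dif_pos hex]
  exact Subtype.ext (hex.choose_spec.symm.trans huv)

lemma exists_perm [Finite Y] [Finite V] (s : G) : ∃ π : Equiv.Perm (Y × Set V),
    (∀ y y' : Y, s • (y : G ⧸ A) = y' → π (y, T V (y : G ⧸ A)) = (y', T V (y' : G ⧸ A))) ∧ ∀ ω, inn V s (π ω).2 = out V s ω.2 := by
  classical
  have : Fintype Y := Fintype.ofFinite _
  have : Fintype V := Fintype.ofFinite _
  obtain ⟨ρ, hρ⟩ := exists_hat V s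
  have hbase : ∀ U : Set V, inn V s (ρ '' U) = out V s U := by
    intro U
    ext v
    constructor
    · rintro ⟨⟨u, hu, rfl⟩, u', hu'⟩
      have := hρ u' _ hu'
      have h2 : u' = u := ρ.injective this
      subst h2
      exact ⟨u', hu, hu'⟩
    · rintro ⟨u, hu, huv⟩
      exact ⟨⟨u, hu, hρ u v huv⟩, u, huv⟩
  obtain ⟨π, h1, h2⟩ := ext_perm (fun ω : Y × Set V => inn V s ω.2) (fun ω => out V s ω.2)
    (Equiv.prodCongr (Equiv.refl Y) (Equiv.Set.congr ρ)) (fun ω => hbase ω.2)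
    (fun ω => if h : ∃ y' : Y, s • (ω.1 : G ⧸ A) = y' then (h.choose, T V (h.choose : G ⧸ A)) else ω)
    (univ.filter fun ω : Y × Set V => (∃ y' : Y, s • (ω.1 : G ⧸ A) = y') ∧ ω.2 = T V (ω.1 : G ⧸ A))
    (by
      intro u hu u' hu' h
      rw [mem_coe, mem_filter] at hu hu'
      dsimp only at h
      rw [dif_pos hu.2.1, dif_pos hu'.2.1] at h
      have e1 := hu.2.1.choose_spec
      have e2 := hu'.2.1.choose_spec
      have h3 := congrArg Prod.fst h
      dsimp only at h3
      rw [h3] at e1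
      have e3 : u.1 = u'.1 := Subtype.ext (smul_left_cancel s (e1.trans e2.symm))
      refine Prod.ext e3 ?_
      rw [hu.2.2, hu'.2.2, e3])
    (by
      intro u hu
      rw [mem_filter] at hu
      obtain ⟨-, hex, hu2⟩ := hu
      rw [dif_pos hex, hu2]
      show inn V s (T V (hex.choose : G ⧸ A)) = _
      rw [← hex.choose_spec]
      exact T_edge V s _)
  refine ⟨π, fun y y' hyy => ?_, h2⟩
  have hex : ∃ y' : Y, s • (y : G ⧸ A) = y' := ⟨y', hyy⟩
  have h3 := h1 (y, T V (y : G ⧸ A)) (by rw [mem_filter]; exact ⟨mem_univ _, hex, rfl⟩)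
  rw [h3, dif_pos hex]
  have h4 : hex.choose = y' := Subtype.ext (hex.choose_spec.symm.trans hyy)
  rw [h4]

end

section
variable {α : Type} [Finite α]

/-- the elements of length at most `L` -/
def ball (α : Type) (L : ℕ) : Set (FreeGroup α) := {f | ∃ l : List (α × Bool), l.length ≤ L ∧ FreeGroup.mk l = f}

lemma ball_finite (L : ℕ) : (ball α L).Finite := by
  have h := (List.finite_length_le (α × Bool) L).image FreeGroup.mk
  refine h.subset ?_
  rintro f ⟨l, hl, rfl⟩
  exact ⟨l, hl, rfl⟩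

lemma ball_mono {L L' : ℕ} (h : L ≤ L') : ball α L ⊆ ball α L' := by
  rintro f ⟨l, hl, rfl⟩
  exact ⟨l, hl.trans h, rfl⟩

lemma inv_ball {L : ℕ} {f : FreeGroup α} (hf : f ∈ ball α L) : f⁻¹ ∈ ball α L := by
  obtain ⟨l, hl, rfl⟩ := hf
  exact ⟨FreeGroup.invRev l, by rw [FreeGroup.invRev_length]; exact hl, FreeGroup.inv_mk.symm⟩

lemma exists_ball (S : Set (FreeGroup α)) (hS : S.Finite) : ∃ L, S ⊆ ball α L := by
  classical
  induction S, hS using Set.Finite.induction_on with
  | empty => exact ⟨0, Set.empty_subset _⟩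
  | @insert a S _ _ ih =>
    obtain ⟨L, hL⟩ := ih
    refine ⟨max L a.toWord.length, ?_⟩
    rintro x (rfl | hx)
    · exact ⟨x.toWord, le_max_right _ _, FreeGroup.mk_toWord⟩
    · exact ball_mono (le_max_left _ _) (hL hx)

/-- **the finite action** -/
theorem action (A B : Subgroup (FreeGroup α)) (L : ℕ) (hA : A ≤ Subgroup.closure (↑A ∩ ball α L)) (hB : B ≤ Subgroup.closure (↑B ∩ ball α L))
    (g : FreeGroup α) (hgL : g ∈ ball α L) (hg : ¬ ∃ b ∈ B, ∃ a ∈ A, b * a = g) :
    ∃ (Ω : Type) (_ : Finite Ω) (Φ : FreeGroup α →* Equiv.Perm Ω) (ω₀ : Ω) (S : Set Ω), (∀ a ∈ A, Φ a ω₀ = ω₀) ∧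
      (∀ b ∈ B, ∀ ω ∈ S, Φ b ω ∈ S) ∧ ω₀ ∈ S ∧ Φ g ω₀ ∉ S := by
  classical
  obtain ⟨Y, hY⟩ : ∃ Y : Set (FreeGroup α ⧸ A), Y = (fun f : FreeGroup α => (f : FreeGroup α ⧸ A)) '' ball α L := ⟨_, rfl⟩
  obtain ⟨V, hV⟩ : ∃ V : Set (FreeGroup α ⧸ B), V = (fun f : FreeGroup α => (f : FreeGroup α ⧸ B)) '' ball α L := ⟨_, rfl⟩
  have hYf : Finite Y := by
    rw [hY]
    exact ((ball_finite L).image _).to_subtype
  have hVf : Finite V := by
    rw [hV]
    exact ((ball_finite L).image _).to_subtype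
  have hYm : ∀ l : List (α × Bool), l.length ≤ L → ((FreeGroup.mk l : FreeGroup α) : FreeGroup α ⧸ A) ∈ Y := by
    intro l hl
    rw [hY]
    exact ⟨_, ⟨l, hl, rfl⟩, rfl⟩
  have hVm : ∀ l : List (α × Bool), l.length ≤ L → ((FreeGroup.mk l : FreeGroup α) : FreeGroup α ⧸ B) ∈ V := by
    intro l hl
    rw [hV]
    exact ⟨_, ⟨l, hl, rfl⟩, rfl⟩
  choose σ hσ1 hσ2 using fun i : α => exists_perm Y V (FreeGroup.of i)
  obtain ⟨Φ, hΦ⟩ : ∃ Φ : FreeGroup α →* Equiv.Perm (Y × Set V), Φ = FreeGroup.lift σ := ⟨_, rfl⟩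
  have hΦof : ∀ i, Φ (FreeGroup.of i) = σ i := fun i => by rw [hΦ, FreeGroup.lift_apply_of]
  -- the cons of a letter
  have hcons : ∀ (x : α × Bool) (l : List (α × Bool)), (FreeGroup.mk (x :: l) : FreeGroup α) = (bif x.2 then FreeGroup.of x.1 else (FreeGroup.of x.1)⁻¹) * FreeGroup.mk l := by
    rintro ⟨i, b⟩ l
    have h1 : (FreeGroup.mk ((i, b) :: l) : FreeGroup α) = FreeGroup.mk [(i, b)] * FreeGroup.mk l := by
      rw [FreeGroup.mul_mk]
      rfl
    rw [h1]
    cases b
    · rfl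
    · rfl
  -- the orbit of the base point
  have hbase : ∀ (l : List (α × Bool)) (hl : l.length ≤ L),
      Φ (FreeGroup.mk l) (⟨((1 : FreeGroup α) : FreeGroup α ⧸ A), hYm [] (Nat.zero_le _)⟩, T V ((1 : FreeGroup α) : FreeGroup α ⧸ A)) =
        (⟨((FreeGroup.mk l : FreeGroup α) : FreeGroup α ⧸ A), hYm l hl⟩, T V ((FreeGroup.mk l : FreeGroup α) : FreeGroup α ⧸ A)) := by
    intro l
    induction l with
    | nil =>
      intro hl
      have : (FreeGroup.mk [] : FreeGroup α) = 1 := rfl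
      simp only [this, map_one]
      rfl
    | cons x l ih =>
      intro hl
      have hl' : l.length ≤ L := by
        rw [List.length_cons] at hl
        omega
      have h1 := ih hl'
      obtain ⟨i, b⟩ := x
      have h2 := hcons (i, b) l
      cases b
      · -- the inverse of a generator
        simp only [cond_false] at h2
        have h3 : FreeGroup.of i • ((FreeGroup.mk ((i, false) :: l) : FreeGroup α) : FreeGroup α ⧸ A) = ((FreeGroup.mk l : FreeGroup α) : FreeGroup α ⧸ A) := by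
          rw [h2]
          show ((FreeGroup.of i * ((FreeGroup.of i)⁻¹ * FreeGroup.mk l) : FreeGroup α) : FreeGroup α ⧸ A) = _
          rw [mul_inv_cancel_left]
        have h4 := hσ1 i ⟨_, hYm _ hl⟩ ⟨_, hYm _ hl'⟩ h3
        have h5 : Φ (FreeGroup.mk ((i, false) :: l)) = (σ i)⁻¹ * Φ (FreeGroup.mk l) := by
          rw [h2, map_mul, map_inv, hΦof]
        rw [h5, Equiv.Perm.mul_apply, h1, Equiv.Perm.inv_eq_iff_eq, h4]
      · simp only [cond_true] at h2
        have h3 : FreeGroup.of i • ((FreeGroup.mk l : FreeGroup α) : FreeGroup α ⧸ A) = ((FreeGroup.mk ((i, true) :: l) : FreeGroup α) : FreeGroup α ⧸ A) := by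
          rw [h2]
          rfl
        have h4 := hσ1 i ⟨_, hYm _ hl'⟩ ⟨_, hYm _ hl⟩ h3
        have h5 : Φ (FreeGroup.mk ((i, true) :: l)) = σ i * Φ (FreeGroup.mk l) := by
          rw [h2, map_mul, hΦof]
        rw [h5, Equiv.Perm.mul_apply, h1, h4]
  -- the labels along the words
  have hlab : ∀ (ω : Y × Set V), (⟨((1 : FreeGroup α) : FreeGroup α ⧸ B), hVm [] (Nat.zero_le _)⟩ : V) ∈ ω.2 →
      ∀ (l : List (α × Bool)) (hl : l.length ≤ L), (⟨((FreeGroup.mk l : FreeGroup α) : FreeGroup α ⧸ B), hVm l hl⟩ : V) ∈ (Φ (FreeGroup.mk l) ω).2 := by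
    intro ω hω l
    induction l with
    | nil =>
      intro hl
      have : (FreeGroup.mk [] : FreeGroup α) = 1 := rfl
      simp only [this, map_one]
      exact hω
    | cons x l ih =>
      intro hl
      have hl' : l.length ≤ L := by
        rw [List.length_cons] at hl
        omega
      have h1 := ih hl'
      obtain ⟨i, b⟩ := x
      have h2 := hcons (i, b) l
      cases b
      · simp only [cond_false] at h2
        have h3 : FreeGroup.of i • ((FreeGroup.mk ((i, false) :: l) : FreeGroup α) : FreeGroup α ⧸ B) = ((FreeGroup.mk l : FreeGroup α) : FreeGroup α ⧸ B) := by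
          rw [h2]
          show ((FreeGroup.of i * ((FreeGroup.of i)⁻¹ * FreeGroup.mk l) : FreeGroup α) : FreeGroup α ⧸ B) = _
          rw [mul_inv_cancel_left]
        have h5 : Φ (FreeGroup.mk ((i, false) :: l)) = (σ i)⁻¹ * Φ (FreeGroup.mk l) := by
          rw [h2, map_mul, map_inv, hΦof]
        rw [h5, Equiv.Perm.mul_apply]
        have h6 := hσ2 i ((σ i)⁻¹ (Φ (FreeGroup.mk l) ω))
        rw [show ∀ x, (σ i) ((σ i)⁻¹ x) = x from fun x => (σ i).apply_symm_apply x] at h6
        have h7 : (⟨((FreeGroup.mk l : FreeGroup α) : FreeGroup α ⧸ B), hVm l hl'⟩ : V) ∈ inn V (FreeGroup.of i) (Φ (FreeGroup.mk l) ω).2 :=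
          ⟨h1, ⟨_, hVm _ hl⟩, h3⟩
        rw [h6] at h7
        obtain ⟨v, hv, hv2⟩ := h7
        have h8 : (v : FreeGroup α ⧸ B) = ((FreeGroup.mk ((i, false) :: l) : FreeGroup α) : FreeGroup α ⧸ B) :=
          smul_left_cancel (FreeGroup.of i) (hv2.trans h3.symm)
        have h9 : v = ⟨((FreeGroup.mk ((i, false) :: l) : FreeGroup α) : FreeGroup α ⧸ B), hVm _ hl⟩ := Subtype.ext h8
        rw [← h9]
        exact hv
      · simp only [cond_true] at h2
        have h3 : FreeGroup.of i • ((FreeGroup.mk l : FreeGroup α) : FreeGroup α ⧸ B) = ((FreeGroup.mk ((i, true) :: l) : FreeGroup α) : FreeGroup α ⧸ B) := by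
          rw [h2]
          rfl
        have h5 : Φ (FreeGroup.mk ((i, true) :: l)) = σ i * Φ (FreeGroup.mk l) := by
          rw [h2, map_mul, hΦof]
        rw [h5, Equiv.Perm.mul_apply]
        have h6 := hσ2 i (Φ (FreeGroup.mk l) ω)
        have h7 : (⟨((FreeGroup.mk ((i, true) :: l) : FreeGroup α) : FreeGroup α ⧸ B), hVm _ hl⟩ : V) ∈ out V (FreeGroup.of i) (Φ (FreeGroup.mk l) ω).2 :=
          ⟨_, h1, h3⟩
        rw [← h6] at h7
        exact h7.1
  obtain ⟨l₀, hl₀, hgl⟩ := hgL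
  refine ⟨Y × Set V, inferInstance, Φ, (⟨((1 : FreeGroup α) : FreeGroup α ⧸ A), hYm [] (Nat.zero_le _)⟩, T V ((1 : FreeGroup α) : FreeGroup α ⧸ A)),
    {ω | (⟨((1 : FreeGroup α) : FreeGroup α ⧸ B), hVm [] (Nat.zero_le _)⟩ : V) ∈ ω.2}, ?_, ?_, ?_, ?_⟩
  · -- `A` fixes the base point
    intro a ha
    have h1 : A ≤ (MulAction.stabilizer (Equiv.Perm (Y × Set V))
      (((⟨((1 : FreeGroup α) : FreeGroup α ⧸ A), hYm [] (Nat.zero_le _)⟩ : Y), T V ((1 : FreeGroup α) : FreeGroup α ⧸ A)) : Y × Set V)).comap Φ := by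
      refine hA.trans ((Subgroup.closure_le _).2 ?_)
      rintro x ⟨hx, l, hl, rfl⟩
      show Φ (FreeGroup.mk l) _ = _
      rw [hbase l hl]
      have h2 : ((FreeGroup.mk l : FreeGroup α) : FreeGroup α ⧸ A) = ((1 : FreeGroup α) : FreeGroup α ⧸ A) := by
        rw [QuotientGroup.eq, mul_one, inv_mem_iff]
        exact hx
      simp only [h2]
    exact h1 ha
  · -- `B` preserves the set
    intro b hb
    have h1 : ∀ x ∈ (↑B ∩ ball α L : Set (FreeGroup α)), ∀ ω ∈ {ω : Y × Set V | (⟨((1 : FreeGroup α) : FreeGroup α ⧸ B), hVm [] (Nat.zero_le _)⟩ : V) ∈ ω.2},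
        Φ x ω ∈ {ω : Y × Set V | (⟨((1 : FreeGroup α) : FreeGroup α ⧸ B), hVm [] (Nat.zero_le _)⟩ : V) ∈ ω.2} := by
      rintro x ⟨hx, l, hl, rfl⟩ ω hω
      have h3 := hlab ω hω l hl
      have h2 : ((FreeGroup.mk l : FreeGroup α) : FreeGroup α ⧸ B) = ((1 : FreeGroup α) : FreeGroup α ⧸ B) := by
        rw [QuotientGroup.eq, mul_one, inv_mem_iff]
        exact hx
      show _ ∈ _
      simp only [h2] at h3
      exact h3
    have h2 : ∀ x ∈ Subgroup.closure (↑B ∩ ball α L : Set (FreeGroup α)), ∀ ω ∈ {ω : Y × Set V | (⟨((1 : FreeGroup α) : FreeGroup α ⧸ B), hVm [] (Nat.zero_le _)⟩ : V) ∈ ω.2},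
        Φ x ω ∈ {ω : Y × Set V | (⟨((1 : FreeGroup α) : FreeGroup α ⧸ B), hVm [] (Nat.zero_le _)⟩ : V) ∈ ω.2} := by
      intro x hx
      induction hx using Subgroup.closure_induction'' with
      | mem x hx => exact h1 x hx
      | inv_mem x hx => exact h1 x⁻¹ ⟨inv_mem hx.1, inv_ball hx.2⟩
      | one =>
        intro ω hω
        rw [map_one]
        exact hω
      | mul x y _ _ hx hy =>
        intro ω hω
        rw [map_mul]
        exact hx _ (hy ω hω)
    exact h2 b (hB hb)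
  · exact ⟨1, rfl, rfl⟩
  · rw [← hgl, hbase l₀ hl₀]
    rintro ⟨f, hf1, hf2⟩
    apply hg
    have e1 : f ∈ B := by
      have h3 : (f : FreeGroup α ⧸ B) = ((1 : FreeGroup α) : FreeGroup α ⧸ B) := hf2
      have h4 := QuotientGroup.eq.1 h3.symm
      simpa using h4
    have e2 : f⁻¹ * FreeGroup.mk l₀ ∈ A := QuotientGroup.eq.1 hf1
    exact ⟨f, e1, f⁻¹ * FreeGroup.mk l₀, e2, by rw [mul_inv_cancel_left, hgl]⟩

end

end Pool.Agent.H41N.DC
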