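import Pool.Agent.H41N.DC.Nib

/-!
# Products of two finitely generated subgroups: closedness in the profinite topology

`PS G`: the product of any two finitely generated subgroups of `G` is closed in the profinite topology. It holds for free groups
of finite rank (Niblo); it passes to groups with a subgroup of finite index which has it (`ps_of_finiteIndex`), and to a group `G`
with a central element `z` if it holds for all the quotients by the subgroups generated by `z ^ M`, `M ≥ 1` (`ps_central`).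
-/

set_option autoImplicit false
set_option linter.unusedSectionVars false

namespace Pool.Agent.H41N.DC

open scoped Pointwise

/-- `X` is closed in the profinite topology -/
def Sep {G : Type} [Group G] (X : Set G) : Prop :=
  ∀ g, g ∉ X → ∃ N : Subgroup G, N.Normal ∧ N.FiniteIndex ∧ ∀ n ∈ N, g * n ∉ X

/-- products of two finitely generated subgroups are closed in the profinite topology -/
def PS (G : Type) [Group G] : Prop := ∀ A B : Subgroup G, A.FG → B.FG → Sep ((A : Set G) * (B : Set G))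

section
variable {G : Type} [Group G]

lemma Sep.iUnion {ι : Type} [Finite ι] {X : ι → Set G} (h : ∀ i, Sep (X i)) : Sep (⋃ i, X i) := by
  intro g hg
  rw [Set.mem_iUnion] at hg
  push Not at hg
  choose N h1 h2 h3 using fun i => h i g (hg i)
  refine ⟨⨅ i, N i, ?_, ?_, ?_⟩
  · exact Subgroup.normal_iInf_normal h1
  · exact Subgroup.finiteIndex_iInf h2
  · intro n hn
    rw [Set.mem_iUnion]
    rintro ⟨i, hi⟩
    exact h3 i n ((Subgroup.mem_iInf.1 hn) i) hi

lemma Sep.trans {X : Set G} (h : Sep X) (a b : G) : Sep ((fun x => a * x * b) '' X) := by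
  intro g hg
  have h1 : a⁻¹ * g * b⁻¹ ∉ X := fun h1 => hg ⟨_, h1, by group⟩
  obtain ⟨N, hN, hN', hn⟩ := h _ h1
  refine ⟨N, hN, hN', fun n hnN => ?_⟩
  rintro ⟨x, hx, hx2⟩
  have h2 : x = a⁻¹ * g * b⁻¹ * (b * n * b⁻¹) := by
    have : x = a⁻¹ * (a * x * b) * b⁻¹ := by group
    rw [this]
    dsimp only at hx2
    rw [hx2]
    group
  rw [h2] at hx
  exact hn _ (hN.conj_mem n hnN b) hx

lemma Sep.comap {G' : Type} [Group G'] (φ : G →* G') {X : Set G'} (h : Sep X) : Sep (φ ⁻¹' X) := by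
  intro g hg
  obtain ⟨N, hN, hN', hn⟩ := h (φ g) hg
  refine ⟨N.comap φ, inferInstance, ?_, fun n hnN => ?_⟩
  · have h1 : ((QuotientGroup.mk' N).comp φ).ker.FiniteIndex := inferInstance
    have h2 : ((QuotientGroup.mk' N).comp φ).ker = N.comap φ := by
      ext x
      simp [MonoidHom.mem_ker]
    rwa [h2] at h1
  · show φ (g * n) ∉ X
    rw [map_mul]
    exact hn _ hnN

lemma Sep.sub {H : Subgroup G} [H.FiniteIndex] {X : Set H} (h : Sep X) : Sep (Subtype.val '' X : Set G) := by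
  intro g hg
  by_cases hgH : g ∈ H
  · have h1 : (⟨g, hgH⟩ : H) ∉ X := fun h1 => hg ⟨_, h1, rfl⟩
    obtain ⟨N, hN, hN', hn⟩ := h _ h1
    have hfi : (N.map H.subtype).FiniteIndex := by
      constructor
      rw [Subgroup.index_map_subtype]
      exact mul_ne_zero hN'.index_ne_zero Subgroup.FiniteIndex.index_ne_zero
    refine ⟨(N.map H.subtype).normalCore, inferInstance, inferInstance, fun n hnN => ?_⟩
    obtain ⟨m, hm, hmn⟩ := Subgroup.normalCore_le _ hnN
    rintro ⟨x, hx, hx2⟩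
    have h2 : x = ⟨g, hgH⟩ * m := by
      apply Subtype.ext
      rw [hx2, ← hmn]
      rfl
    rw [h2] at hx
    exact hn m hm hx
  · refine ⟨H.normalCore, inferInstance, inferInstance, fun n hnN => ?_⟩
    rintro ⟨x, _, hx2⟩
    apply hgH
    have h2 : g = x * n⁻¹ := by rw [hx2]; group
    rw [h2]
    exact H.mul_mem x.2 (H.inv_mem (Subgroup.normalCore_le _ hnN))

lemma fg_subgroupOf (A H : Subgroup G) [H.FiniteIndex] (hA : A.FG) : (A.subgroupOf H).FG := by
  rw [← Group.fg_iff_subgroup_fg] at hA ⊢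
  have h1 : Group.FG (H.subgroupOf A) := inferInstance
  let φ : (H.subgroupOf A) →* (A.subgroupOf H) :=
    { toFun := fun x => ⟨⟨x.1.1, x.2⟩, x.1.2⟩
      map_one' := rfl
      map_mul' := fun _ _ => rfl }
  exact Group.fg_of_surjective (f := φ) (fun y => ⟨⟨⟨y.1.1, y.2⟩, y.1.2⟩, rfl⟩)

/-- **passage to finite extensions** -/
theorem ps_of_finiteIndex (H : Subgroup G) [H.FiniteIndex] (h : PS H) : PS G := by
  intro A B hA hB
  have h1 := h (A.subgroupOf H) (B.subgroupOf H) (fg_subgroupOf A H hA) (fg_subgroupOf B H hB)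
  have h2 : Sep (⋃ q : (A ⧸ H.subgroupOf A) × (B ⧸ H.subgroupOf B),
      (fun x : G => (q.1.out : G) * x * ((q.2.out : G))⁻¹) '' (Subtype.val '' ((A.subgroupOf H : Set H) * (B.subgroupOf H : Set H)))) :=
    Sep.iUnion fun q => h1.sub.trans _ _
  have h3 : (A : Set G) * (B : Set G) = (⋃ q : (A ⧸ H.subgroupOf A) × (B ⧸ H.subgroupOf B),
      (fun x : G => (q.1.out : G) * x * ((q.2.out : G))⁻¹) '' (Subtype.val '' ((A.subgroupOf H : Set H) * (B.subgroupOf H : Set H)))) := by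
    ext g
    rw [Set.mem_iUnion, Set.mem_mul]
    constructor
    · rintro ⟨a, ha, b, hb, rfl⟩
      obtain ⟨qa, hqa⟩ : ∃ qa : A ⧸ H.subgroupOf A, qa = ((⟨a, ha⟩ : A) : A ⧸ H.subgroupOf A) := ⟨_, rfl⟩
      obtain ⟨qb, hqb⟩ : ∃ qb : B ⧸ H.subgroupOf B, qb = (((⟨b, hb⟩ : B)⁻¹ : B) : B ⧸ H.subgroupOf B) := ⟨_, rfl⟩
      have e1 : qa.out⁻¹ * (⟨a, ha⟩ : A) ∈ H.subgroupOf A := by
        rw [← QuotientGroup.eq, QuotientGroup.out_eq']
        exact hqa
      have e2 : qb.out⁻¹ * (⟨b, hb⟩ : B)⁻¹ ∈ H.subgroupOf B := by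
        rw [← QuotientGroup.eq, QuotientGroup.out_eq']
        exact hqb
      have e1' : (qa.out : G)⁻¹ * a ∈ H := e1
      have e2' : b * (qb.out : G) ∈ H := by
        have h5 : (qb.out : G)⁻¹ * b⁻¹ ∈ H := e2
        have h6 := H.inv_mem h5
        simpa using h6
      refine ⟨(qa, qb), (qa.out : G)⁻¹ * a * (b * (qb.out : G)), ⟨⟨_, H.mul_mem e1' e2'⟩, ?_, rfl⟩, ?_⟩
      · refine ⟨⟨_, e1'⟩, ?_, ⟨_, e2'⟩, ?_, rfl⟩
        · exact A.mul_mem (A.inv_mem qa.out.2) ha
        · exact B.mul_mem hb qb.out.2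
      · dsimp only
        group
    · rintro ⟨⟨qa, qb⟩, x, ⟨⟨y, hyH⟩, ⟨⟨u, hu⟩, hu2, ⟨v, hv⟩, hv2, huv⟩, rfl⟩, rfl⟩
      have e1 : u ∈ A := hu2
      have e2 : v ∈ B := hv2
      have e3 : u * v = y := congrArg Subtype.val huv
      refine ⟨(qa.out : G) * u, A.mul_mem qa.out.2 e1, v * (qb.out : G)⁻¹, B.mul_mem e2 (B.inv_mem qb.out.2), ?_⟩
      dsimp only
      rw [← e3]
      group
  rw [h3]
  exact h2

lemma fg_map {G' : Type} [Group G'] (φ : G →* G') (A : Subgroup G) (hA : A.FG) : (A.map φ).FG := by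
  rw [Subgroup.fg_iff] at hA ⊢
  obtain ⟨S, hS, hf⟩ := hA
  exact ⟨φ '' S, by rw [← hS, MonoidHom.map_closure], hf.image _⟩

lemma image_mul' {G' : Type} [Group G'] (φ : G →* G') (A B : Subgroup G) : (A : Set G) * (B : Set G) ⊆ φ ⁻¹' (((A.map φ : Subgroup G') : Set G') * (B.map φ : Subgroup G')) := by
  rintro _ ⟨a, ha, b, hb, rfl⟩
  exact ⟨φ a, ⟨a, ha, rfl⟩, φ b, ⟨b, hb, rfl⟩, (map_mul φ a b).symm⟩

lemma ps_equiv {G' : Type} [Group G'] (e : G ≃* G') (h : PS G) : PS G' := by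
  intro A B hA hB
  have h1 := (h (A.map e.symm.toMonoidHom) (B.map e.symm.toMonoidHom) (fg_map _ _ hA) (fg_map _ _ hB)).comap e.symm.toMonoidHom
  have h2 : e.symm.toMonoidHom ⁻¹' (((A.map e.symm.toMonoidHom : Subgroup G) : Set G) * (B.map e.symm.toMonoidHom : Subgroup G)) = (A : Set G') * (B : Set G') := by
    apply Set.Subset.antisymm
    · rintro x ⟨_, ⟨a, ha, rfl⟩, _, ⟨b, hb, rfl⟩, hx⟩
      refine ⟨a, ha, b, hb, ?_⟩
      apply e.symm.injective
      have h3 : e.symm a * e.symm b = e.symm x := hx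
      rw [← h3, map_mul]
    · exact image_mul' _ A B
  rw [h2] at h1
  exact h1

/-- **central extensions** -/
theorem ps_central (z : G) (hz : ∀ g, z * g = g * z)
    (h : ∀ M : ℕ, 1 ≤ M → ∃ (Q : Type) (_ : Group Q) (π : G →* Q), PS Q ∧ ∀ x, π x = 1 → ∃ k : ℤ, x = z ^ (M * k)) : PS G := by
  intro A B hA hB g hg
  have hzk : ∀ (k : ℤ) (g : G), z ^ k * g = g * z ^ k := fun k g => ((show Commute z g from hz g).zpow_left k)
  -- the translates of `g` in the product
  obtain ⟨M, hM, hM2⟩ : ∃ M : ℕ, 1 ≤ M ∧ ∀ k : ℤ, g * z ^ (M * k) ∉ (A : Set G) * (B : Set G) := by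
    -- the group of the differences
    let D : AddSubgroup ℤ :=
      { carrier := {n | ∃ a ∈ A, ∃ b ∈ B, a = z ^ n * b}
        zero_mem' := ⟨1, A.one_mem, 1, B.one_mem, by simp⟩
        add_mem' := by
          rintro m n ⟨a, ha, b, hb, h1⟩ ⟨a', ha', b', hb', h2⟩
          refine ⟨a * a', A.mul_mem ha ha', b * b', B.mul_mem hb hb', ?_⟩
          rw [h1, h2, zpow_add]
          calc z ^ m * b * (z ^ n * b') = z ^ m * (b * z ^ n) * b' := by group
            _ = z ^ m * (z ^ n * b) * b' := by rw [hzk n b]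
            _ = _ := by group
        neg_mem' := by
          rintro m ⟨a, ha, b, hb, h1⟩
          refine ⟨a⁻¹, A.inv_mem ha, b⁻¹, B.inv_mem hb, ?_⟩
          rw [h1, mul_inv_rev, zpow_neg]
          have := hzk (-m) b⁻¹
          rw [zpow_neg] at this
          exact this.symm }
    obtain ⟨d, hd⟩ := Int.subgroup_cyclic D
    have hdD : ∀ n, n ∈ D ↔ (d.natAbs : ℤ) ∣ n := by
      intro n
      rw [hd, AddSubgroup.mem_closure_singleton, Int.natAbs_dvd]
      constructor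
      · rintro ⟨k, rfl⟩
        exact ⟨k, by rw [smul_eq_mul, mul_comm]⟩
      · rintro ⟨k, rfl⟩
        exact ⟨k, by rw [smul_eq_mul, mul_comm]⟩
    have hdiff : ∀ m n : ℤ, g * z ^ m ∈ (A : Set G) * (B : Set G) → g * z ^ n ∈ (A : Set G) * (B : Set G) → (d.natAbs : ℤ) ∣ n - m := by
      rintro m n ⟨a, ha, b, hb, h1⟩ ⟨a', ha', b', hb', h2⟩
      rw [← hdD]
      refine ⟨a⁻¹ * a', A.mul_mem (A.inv_mem ha) ha', b * b'⁻¹, B.mul_mem hb (B.inv_mem hb'), ?_⟩
      have e1 : a = g * z ^ m * b⁻¹ := by rw [← h1]; group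
      have e2 : a' = g * z ^ n * b'⁻¹ := by rw [← h2]; group
      rw [e1, e2]
      calc (g * z ^ m * b⁻¹)⁻¹ * (g * z ^ n * b'⁻¹) = b * (z ^ (n - m) * b'⁻¹) := by group
        _ = b * (b'⁻¹ * z ^ (n - m)) := by rw [hzk]
        _ = (b * b'⁻¹) * z ^ (n - m) := by group
        _ = _ := (hzk _ _).symm
    have hshift : ∀ m n : ℤ, g * z ^ m ∈ (A : Set G) * (B : Set G) → (d.natAbs : ℤ) ∣ n → g * z ^ (m + n) ∈ (A : Set G) * (B : Set G) := by
      rintro m n ⟨a, ha, b, hb, h1⟩ hn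
      rw [← hdD] at hn
      obtain ⟨a', ha', b', hb', h2⟩ := hn
      refine ⟨a * a', A.mul_mem ha ha', b'⁻¹ * b, B.mul_mem (B.inv_mem hb') hb, ?_⟩
      dsimp only
      rw [h2]
      calc a * (z ^ n * b') * (b'⁻¹ * b) = a * (z ^ n * b) := by group
        _ = a * (b * z ^ n) := by rw [hzk]
        _ = (a * b) * z ^ n := by group
        _ = (g * z ^ m) * z ^ n := by rw [show a * b = g * z ^ m from h1]
        _ = _ := by group
    by_cases hw : ∃ m : ℤ, g * z ^ m ∈ (A : Set G) * (B : Set G)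
    · obtain ⟨m, hm⟩ := hw
      have hm0 : ¬ (d.natAbs : ℤ) ∣ m := by
        intro hdm
        have := hshift m (-m) hm (by rwa [Int.dvd_neg])
        rw [add_neg_cancel, zpow_zero, mul_one] at this
        exact hg this
      by_cases hd0 : d.natAbs = 0
      · refine ⟨m.natAbs + 1, by omega, fun k hk => ?_⟩
        have h1 := hdiff _ _ hm hk
        rw [hd0, Nat.cast_zero, zero_dvd_iff] at h1
        rw [hd0, Nat.cast_zero, zero_dvd_iff] at hm0
        have h2 : ((m.natAbs + 1 : ℕ) : ℤ) ∣ m := ⟨k, by linarith⟩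
        have h3 := Int.le_of_dvd (by positivity : 0 < |m|) ((dvd_abs _ _).2 h2)
        rw [Int.abs_eq_natAbs] at h3
        push_cast at h3
        omega
      · refine ⟨d.natAbs, by omega, fun k hk => ?_⟩
        have h1 := hdiff _ _ hm hk
        apply hm0
        have h2 : m = (d.natAbs : ℤ) * k - ((d.natAbs : ℤ) * k - m) := by ring
        rw [h2]
        exact dvd_sub (Dvd.intro _ rfl) h1
    · push Not at hw
      exact ⟨1, le_rfl, fun k => hw _⟩
  obtain ⟨Q, _, π, hQ, hπ⟩ := h M hM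
  have h1 := (hQ (A.map π) (B.map π) (fg_map _ _ hA) (fg_map _ _ hB)).comap π
  have h2 : g ∉ π ⁻¹' (((A.map π : Subgroup Q) : Set Q) * (B.map π : Subgroup Q)) := by
    rintro ⟨_, ⟨a, ha, rfl⟩, _, ⟨b, hb, rfl⟩, hx⟩
    have h3 : π a * π b = π g := hx
    have h4 : π (g⁻¹ * (a * b)) = 1 := by
      rw [map_mul, map_inv, map_mul, h3, inv_mul_cancel]
    obtain ⟨k, hk⟩ := hπ _ h4
    apply hM2 k
    rw [← hk, mul_inv_cancel_left]
    exact ⟨a, ha, b, hb, rfl⟩
  obtain ⟨N, hN, hN', hn⟩ := h1 g h2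
  exact ⟨N, hN, hN', fun n hnN hmem => hn n hnN (image_mul' π A B hmem)⟩

end

/-- **free groups** -/
theorem ps_free (α : Type) [Finite α] : PS (FreeGroup α) := by
  classical
  intro A B hA hB g hg
  rw [Subgroup.fg_iff] at hA hB
  obtain ⟨S₁, hS₁, hf₁⟩ := hA
  obtain ⟨S₂, hS₂, hf₂⟩ := hB
  obtain ⟨L, hL⟩ := exists_ball (S₁ ∪ S₂ ∪ {g⁻¹}) ((hf₁.union hf₂).union (Set.finite_singleton _))
  have hgen : ∀ (S : Set (FreeGroup α)) (A : Subgroup (FreeGroup α)), Subgroup.closure S = A → S ⊆ ball α L → A ≤ Subgroup.closure (↑A ∩ ball α L) := by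
    intro S A hS hSL
    conv_lhs => rw [← hS]
    refine Subgroup.closure_mono fun x hx => ⟨?_, hSL hx⟩
    rw [← hS]
    exact Subgroup.subset_closure hx
  obtain ⟨Ω, _, Φ, ω₀, S, h1, h2, h3, h4⟩ := action A B L (hgen S₁ A hS₁ fun x hx => hL (Or.inl (Or.inl hx)))
    (hgen S₂ B hS₂ fun x hx => hL (Or.inl (Or.inr hx))) g⁻¹ (hL (Or.inr rfl)) (by
      rintro ⟨b, hb, a, ha, hab⟩
      apply hg
      refine ⟨a⁻¹, A.inv_mem ha, b⁻¹, B.inv_mem hb, ?_⟩
      have : g = (b * a)⁻¹ := by rw [hab, inv_inv]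
      rw [this, mul_inv_rev])
  refine ⟨Φ.ker, inferInstance, inferInstance, fun n hn => ?_⟩
  rintro ⟨a, ha, b, hb, hab⟩
  apply h4
  have e1 : Φ g = Φ a * Φ b := by
    have e2 : Φ (g * n) = Φ a * Φ b := by
      rw [← map_mul]
      exact congrArg Φ hab.symm
    rwa [map_mul, (MonoidHom.mem_ker.1 hn : Φ n = 1), mul_one] at e2
  rw [map_inv, e1, mul_inv_rev, Equiv.Perm.mul_apply, ← map_inv, ← map_inv, h1 _ (A.inv_mem ha)]
  exact h2 _ (B.inv_mem hb) _ h3

end Pool.Agent.H41N.DC
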